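import Pool.Agent.H62.PR.Nat8

/-!
# The Poonen-Rains distribution of 2-Selmer groups in families of elliptic curves ordered by height

Let `S` be a set of `2 k` primes `Q = 1` modulo `8`. We call `(a, b)` basic if `a > 0`, `a = 3` modulo
`4`, `a = 2` modulo `3`, `b` is odd and prime to `3`, `4 a ^ 3 + 27 b ^ 2` is squarefree, and for all
`Q ∈ S` we have `Q ∣ b` and `- a` is not a square modulo `Q`. The family `Family S k` consists of the
curves

  `y ^ 2 = x ^ 3 + a D ^ 2 x + b D ^ 3`, `D = ∏ Q ∈ J, Q`, `J ⊆ S` with `k` elements, `(a, b)` basic.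

So it is a union of finitely many families which are given by congruences and by a condition of
squarefreeness, and it is a positive proportion of all elliptic curves `y ^ 2 = x ^ 3 + A x + B` over
`ℚ`, ordered by the height `max (|A| ^ 3, |B| ^ 2)`.

**Theorem.** For every `ε > 0` there is a `k₀` and for every `k ≥ k₀` there is a `δ > 0` such that for
ALL sets `S` of `2 k` primes `1` modulo `8` the ratios of which are at most `1 + δ` (there are
infinitely many): `Family S k` is a positive proportion of all elliptic curves over `ℚ`, and for all large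
`x` and every set `𝒟` of natural numbers the proportion of the curves with `dim Sel₂(E / ℚ) ∈ 𝒟` among
the curves in `Family S k` of height at most `x` differs from `∑ d ∈ 𝒟, C_{2,d}` by at most `ε`. Here
`C_{2,d}` is the number of the conjecture of Poonen and Rains.

In particular (second part) for every `d` a positive proportion of all elliptic curves over `ℚ`,
ordered by height, has `dim Sel₂(E / ℚ) = d`.

Method. (1) For a basic curve `E` without exceptional classes there is a maximal isotropic subspace `Λ`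
of `∏ Q ∈ S, H¹(ℚ_Q, E[2])`, a product of hyperbolic planes, such that for all `J ⊆ S` the 2-Selmer
group of the twist of `E` by `∏ Q ∈ J, Q` is `Λ ∩ L_J`, `L_J` a product of lines, one of two lines at
each `Q` (2-descent with the cubic field `L` of `E`, explicit local conditions at all places, the
`S`-units of square norm in `L`, and the reciprocity law). (2) Geometry of numbers: the average over the
basic curves of the number of elements of `Λ ∩ L_J` which vanish exactly at a given subset `Z` of `S` is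
at most `K 2 ^ (- 2 k)`, with a constant `K` which does not depend on `S`, `J`, `Z`. (3) So for most
curves the elements of `Λ ∩ L_J` vanish at about half of the places in `J` and at about half of the
places outside `J`, for most `J`; then the dimension of `Λ ∩ L_J`, when `J` changes at one place, is
almost the Markov chain of Klagsbrun, Mazur and Rubin, between the sets with `k` and with `k + 1`
elements, and the reversibility of the chain gives the distribution for `J` with `k` elements, given
the parity. (4) The twist by `- 1` maps `(a, b)` to `(a, - b)`, it does not change the height, and it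
changes the parity because the local images at `2` are two different groups of order two (as `a = 3`
modulo `4`). (5) The primes in `S` are nearly equal, so all the twists have nearly the same height.

This is joint work of the team: the parts were proved by helper6, helper25, helper29, helper35,
helper62, helper66, helper70, helper72, helper75, helper88, helper89 and helper93 (directories
`Pool/Agent/H<nn>/PR`). It uses library modules of `MP_78d38b_nt` (helper922 and others: `N922`, `N874`,
`N615`, `N426`, `N7`, `N456`, `N803`, ...) for the lattices, the reduction theory, the counting in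
boxes, the local theory at the odd primes and the product formula for Hilbert symbols.
-/

set_option autoImplicit false
set_option linter.all false

namespace Pool.Agent.Results.MP_8cb858_nt.HeightFamilies

open Filter Pool.Agent.TH115.GD
open scoped Classical

/-- The curve `y ^ 2 = x ^ 3 + A x + B` over `ℚ`. -/
def curve (q : ℤ × ℤ) : WeierstrassCurve ℚ := ⟨0, 0, 0, (q.1 : ℚ), (q.2 : ℚ)⟩

/-- All elliptic curves `y ^ 2 = x ^ 3 + A x + B` over `ℚ` with integers `A`, `B` of height
`max (|A| ^ 3, |B| ^ 2)` at most `x`. -/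
def Curves (x : ℝ) : Set (ℤ × ℤ) :=
  {q | 4 * q.1 ^ 3 + 27 * q.2 ^ 2 ≠ 0 ∧ |(q.1 : ℝ)| ^ 3 ≤ x ∧ (q.2 : ℝ) ^ 2 ≤ x}

/-- The 2-Selmer group of `W` over `ℚ` has dimension `d`, i.e. it has `2 ^ d` elements. The elements
of `Pool.Agent.H62.PR.Sel2 W` (file `H62/PR/Sel0.lean`) are the classes of continuous cocycles of the
absolute Galois group of `ℚ` with values in the points of order two of `W`, which are coboundaries of
points of `W` over the completions of `ℚ` at all the maximal ideals and over `ℝ`, modulo coboundaries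
of points of order two. -/
def SelmerDim (W : WeierstrassCurve ℚ) (d : ℕ) : Prop :=
  Nat.card (Pool.Agent.H62.PR.Sel2 W) = 2 ^ d

/-- The numbers of Poonen and Rains,
`C_{2,d} = ∏_{j ≥ 0} (1 + 2 ^ (- j)) ^ (- 1) ∏_{1 ≤ i ≤ d} 2 / (2 ^ i - 1)`. The factors of the
infinite product are less than one, so it is the infimum of the finite products. -/
noncomputable def C2 (d : ℕ) : ℝ :=
  (⨅ N : ℕ, ∏ j ∈ Finset.range N, (1 + (1 / 2 : ℝ) ^ j)⁻¹) *
    ∏ i ∈ Finset.range d, (2 : ℝ) / (2 ^ (i + 1) - 1)

/-- Sets of `2 k` primes `1` modulo `8` which are nearly equal: the ratios are at most `1 + δ`. -/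
structure Near (k : ℕ) (δ : ℝ) (S : Finset ℤ) : Prop where
  card : S.card = 2 * k
  prime : ∀ Q ∈ S, 0 < Q ∧ Prime Q ∧ Q % 8 = 1
  ratio : ∀ Q ∈ S, ∀ Q' ∈ S, (Q : ℝ) ≤ (1 + δ) * (Q' : ℝ)

/-- The pair `(a, b)` is basic. -/
structure Basic (S : Finset ℤ) (a b : ℤ) : Prop where
  pos : 0 < a
  a4 : a % 4 = 3
  a3 : a % 3 = 2
  b2 : b % 2 = 1
  b3 : b % 3 ≠ 0
  sq : Squarefree (4 * a ^ 3 + 27 * b ^ 2)
  div : ∀ Q ∈ S, Q ∣ b
  nonsq : ∀ Q ∈ S, ∀ z : ℤ, ¬ Q ∣ z ^ 2 + a

/-- The family of the curves `y ^ 2 = x ^ 3 + a D ^ 2 x + b D ^ 3` with `(a, b)` basic, where `D` is a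
product of `k` different elements of `S`. -/
def Family (S : Finset ℤ) (k : ℕ) : Set (ℤ × ℤ) :=
  {q | ∃ J ⊆ S, J.card = k ∧ ∃ a b : ℤ, Basic S a b ∧
    q = (a * (∏ Q ∈ J, Q) ^ 2, b * (∏ Q ∈ J, Q) ^ 3)}

/-- The curves in the set `ℱ`, ordered by height, are a positive proportion of all elliptic curves over
`ℚ`, and for all large `x` and all sets `𝒟` of natural numbers the proportion of those with
`dim Sel₂(E / ℚ) ∈ 𝒟` among the curves in `ℱ` of height at most `x` differs from `∑ d ∈ 𝒟, C_{2,d}` by at
most `ε`. -/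
def PoonenRains (ε : ℝ) (ℱ : Set (ℤ × ℤ)) : Prop :=
  ∃ c : ℝ, 0 < c ∧ ∀ᶠ x : ℝ in atTop, (Curves x).Finite ∧ 0 < (Curves x).ncard ∧
    c * ((Curves x).ncard : ℝ) ≤ ((ℱ ∩ Curves x).ncard : ℝ) ∧
    ∀ 𝒟 : Set ℕ, |(({q ∈ ℱ ∩ Curves x | ∃ d ∈ 𝒟, SelmerDim (curve q) d}).ncard : ℝ) -
      (∑' d : 𝒟, C2 d) * ((ℱ ∩ Curves x).ncard : ℝ)| ≤ ε * ((ℱ ∩ Curves x).ncard : ℝ)

theorem family_eq (S : Finset ℤ) (k : ℕ) : Family S k = Pool.Agent.H62.PR.Fa S k := by
  ext q
  constructor
  · rintro ⟨J, hJ, hk, a, b, h, rfl⟩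
    exact ⟨J, Finset.mem_powersetCard.2 ⟨hJ, hk⟩, (a, b), ⟨h.pos, h.a4, h.a3, h.b2, h.b3, h.sq,
      fun Q hQ => ⟨h.div Q hQ, h.nonsq Q hQ⟩⟩, rfl⟩
  · rintro ⟨J, hJ, p, h, rfl⟩
    obtain ⟨h1, h2⟩ := Finset.mem_powersetCard.1 hJ
    exact ⟨J, h1, h2, p.1, p.2, ⟨h.pos, h.a4, h.a3, h.b2, h.b3, h.sq, fun Q hQ => (h.s Q hQ).1,
      fun Q hQ => (h.s Q hQ).2⟩, rfl⟩

theorem curves_eq (x : ℝ) : Curves x = Pool.Agent.H62.PR.AllC x := rfl

/-- **The Poonen-Rains distribution up to `ε` in positive-density families ordered by height.**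

(1) For every `ε > 0` there is a `k₀` such that for all `k ≥ k₀` there is a `δ > 0` with the following
property. There are sets `S` of `2 k` primes `1` modulo `8` with ratios at most `1 + δ`, with all
elements larger than any given bound; and for ALL such sets `S` the family `Family S k` of elliptic
curves is a positive proportion of all elliptic curves over `ℚ`, ordered by height, and in this family,
ordered by height, the distribution of the 2-Selmer rank differs from that of Poonen and Rains by at
most `ε`, for all sets of ranks and for all large heights.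

(2) For every `d` a positive proportion of all elliptic curves over `ℚ`, ordered by height, has 2-Selmer
rank `d`. -/
theorem result :
    (∀ ε : ℝ, 0 < ε → ∃ k₀ : ℕ, ∀ k ≥ k₀, ∃ δ : ℝ, 0 < δ ∧
      (∀ N : ℤ, ∃ S : Finset ℤ, Near k δ S ∧ ∀ Q ∈ S, N < Q) ∧
      ∀ S : Finset ℤ, Near k δ S → PoonenRains ε (Family S k)) ∧
    ∀ d : ℕ, ∃ c : ℝ, 0 < c ∧ ∀ᶠ x : ℝ in atTop,
      c * ((Curves x).ncard : ℝ) ≤ (({q ∈ Curves x | SelmerDim (curve q) d}).ncard : ℝ) := by
  refine ⟨fun ε hε => ?_, fun d => ?_⟩
  · obtain ⟨k₀, h⟩ := Pool.Agent.H62.PR.main2 ε hε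
    refine ⟨k₀, fun k hk => ?_⟩
    obtain ⟨δ, hδ, h⟩ := h k hk
    refine ⟨δ, hδ, fun N => ?_, fun S hS => ?_⟩
    · obtain ⟨S, h1, h2, h3⟩ := Pool.Agent.H66.PR.Pri.pri N (2 * k) δ hδ
      exact ⟨S, ⟨h1, fun Q hQ => ⟨(h2 Q hQ).1.1, (h2 Q hQ).1.2, (h2 Q hQ).2.1⟩, h3⟩,
        fun Q hQ => (h2 Q hQ).2.2⟩
    · obtain ⟨c, hc, x₀, hx₀⟩ := h S (fun Q hQ => ⟨⟨(hS.prime Q hQ).1, (hS.prime Q hQ).2.1⟩,
        (hS.prime Q hQ).2.2⟩) hS.card hS.ratio
      rw [← family_eq] at hx₀
      exact ⟨c, hc, eventually_atTop.2 ⟨x₀, hx₀⟩⟩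
  · obtain ⟨c, hc, x₀, hx₀⟩ := Pool.Agent.H62.PR.pos2 d
    exact ⟨c, hc, eventually_atTop.2 ⟨x₀, hx₀⟩⟩

end Pool.Agent.Results.MP_8cb858_nt.HeightFamilies
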